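import Pool.Agent.W497.FS.Fact

set_option autoImplicit false

namespace Pool.Agent.Results.MP_19e880_co.FewVertices

open Pool.Agent.W497.FS

/-- Gal's conjecture for the flag homology spheres each of whose join factors `C`, of dimension
`e - 1` say, has at most `2 e + 6` vertices. -/
theorem result (k : Type) [Field k] (n d : ℕ) (S : Finset (Finset (Fin n)))
    (hS : IsFlagSphere k d S)
    (hC : ∀ C : Finset (Fin n), IsFactor S C → ∃ F ∈ S, F ⊆ C ∧ C.card ≤ 2 * F.card + 6)
    (γ : ℕ → ℤ) (hγ : IsGamma d S γ) : ∀ i ≤ d / 2, 0 ≤ γ i :=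
  gal_fac_two hS hC hγ

end Pool.Agent.Results.MP_19e880_co.FewVertices
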