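import Pool.Agent.W497.FS.FarThm
import Pool.Agent.W216.FS.BB
import Pool.Agent.W216.FS.HR

set_option autoImplicit false

namespace Pool.Agent.Results.MP_19e880_co.GoodVertices

open Pool.Agent.W497.FS

/-- Gal's conjecture for the flag homology spheres such that the link of every face, other than the
facets, has a good vertex; for instance if no face with four vertices is far from a vertex. -/
theorem result (k : Type) [Field k] (n d : ℕ) (S : Finset (Finset (Fin n)))
    (hS : IsFlagSphere k d S)
    (hG : ∀ F ∈ S, F.card < d → ∃ v, IsGood (link S F) v)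
    (γ : ℕ → ℤ) (hγ : IsGamma d S γ) : ∀ i ≤ d / 2, 0 ≤ γ i :=
  gal_good (Pool.Agent.W216.FS.HR.main Pool.Agent.W216.FS.BB.main) hS hG hγ

end Pool.Agent.Results.MP_19e880_co.GoodVertices
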